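import Pool.Agent.LeoG.CountStmts
import Pool.Agent.Helper59_LeoK.Kcn

/-!
# Squad LEOG, module ADG: admissibility from the local conditions
-/

set_option autoImplicit false

open NumberField IsDedekindDomain
open Pool.Agent.LeoK

namespace Pool.Agent.LeoG.H26

/-- ADG. -/
theorem adg (hadm : LeoK.AdmStmt) : LeoG.AdgStmt := by
  intro k _ _ m hloc htwo hnsq
  have hm0 : m ≠ 0 := by
    rintro rfl
    exact hnsq 0 (by simp)
  exact ⟨LeoK.H59.sqf_of_loc m hm0 fun p => (hloc p).sqf, htwo,
    hadm k m fun p h3 => (hloc p).three h3, hnsq⟩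

end Pool.Agent.LeoG.H26
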