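import Pool.Agent.LeoG.CountStmts
import Pool.Agent.Helper87_LeoG.Thu

/-!
# Squad LEOG, module HZA: the size of a vector under linear substitutions
-/

set_option autoImplicit false

open NumberField Module
open Pool.Agent.LeoK

namespace Pool.Agent.LeoG.H26

open Pool.Agent.LeoG.H87

lemma q4_ext {A : Type} {v w : Q4 A} (h0 : v 0 = w 0) (h1 : v 1 = w 1) (h2 : v 2 = w 2)
    (h3 : v 3 = w 3) : v = w := by
  funext i
  fin_cases i
  · exact h0
  · exact h1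
  · exact h2
  · exact h3

/-- the parameters of the substituted form -/
def su (u : Fin 4 → ℝ) (x y z w : ℝ) : Fin 4 → ℝ :=
  ![u 0 * x + u 1 * z, u 0 * y + u 1 * w, u 2 * x + u 3 * z, u 2 * y + u 3 * w]

lemma gact_th (u : Fin 4 → ℝ) (x y z w : ℝ) : gact (th u) x y z w = th (su u x y z w) := by
  apply q4_ext
  · change gval (th u) x z = (u 0 * x + u 1 * z) ^ 3 + (u 2 * x + u 3 * z) ^ 3
    rw [gval_th]
  · change 3 * th u 0 * x ^ 2 * y + th u 1 * (x ^ 2 * w + 2 * x * y * z) +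
      th u 2 * (2 * x * z * w + y * z ^ 2) + 3 * th u 3 * z ^ 2 * w =
      3 * ((u 0 * x + u 1 * z) ^ 2 * (u 0 * y + u 1 * w) +
        (u 2 * x + u 3 * z) ^ 2 * (u 2 * y + u 3 * w))
    rw [th_0, th_1, th_2, th_3]
    ring
  · change 3 * th u 0 * x * y ^ 2 + th u 1 * (2 * x * y * w + y ^ 2 * z) +
      th u 2 * (x * w ^ 2 + 2 * y * z * w) + 3 * th u 3 * z * w ^ 2 =
      3 * ((u 0 * x + u 1 * z) * (u 0 * y + u 1 * w) ^ 2 +
        (u 2 * x + u 3 * z) * (u 2 * y + u 3 * w) ^ 2)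
    rw [th_0, th_1, th_2, th_3]
    ring
  · change gval (th u) y w = (u 0 * y + u 1 * w) ^ 3 + (u 2 * y + u 3 * w) ^ 3
    rw [gval_th]

lemma dt_su (u : Fin 4 → ℝ) (x y z w : ℝ) : dt (su u x y z w) = dt u * (x * w - y * z) := by
  change (u 0 * x + u 1 * z) * (u 2 * y + u 3 * w) - (u 0 * y + u 1 * w) * (u 2 * x + u 3 * z) =
    (u 0 * u 3 - u 1 * u 2) * (x * w - y * z)
  ring

lemma gmir_eq {A : Type} [CommRing A] (v : Q4 A) : gmir v = gact v (-1) 0 0 1 := by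
  apply q4_ext
  · change -v 0 = gval v (-1) 0
    rw [gval]
    ring
  · change v 1 = 3 * v 0 * (-1) ^ 2 * 0 + v 1 * ((-1) ^ 2 * 1 + 2 * (-1) * 0 * 0) +
      v 2 * (2 * (-1) * 0 * 1 + 0 * 0 ^ 2) + 3 * v 3 * 0 ^ 2 * 1
    ring
  · change -v 2 = 3 * v 0 * (-1) * 0 ^ 2 + v 1 * (2 * (-1) * 0 * 1 + 0 ^ 2 * 0) +
      v 2 * ((-1) * 1 ^ 2 + 2 * 0 * 0 * 1) + 3 * v 3 * 0 * 1 ^ 2
    ring
  · change v 3 = gval v 0 1
    rw [gval]
    ring

lemma mm_gmir {A : Type} [CommRing A] (v : Q4 A) : mm (gmir v) = mm v := by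
  change -dsc (gmir v) = -dsc v
  have h : dsc (gmir v) = dsc v := by
    change v 1 ^ 2 * (-v 2) ^ 2 - 4 * (-v 0) * (-v 2) ^ 3 - 4 * v 1 ^ 3 * v 3 -
      27 * (-v 0) ^ 2 * v 3 ^ 2 + 18 * (-v 0) * v 1 * (-v 2) * v 3 = _
    rw [dsc]
    ring
  rw [h]

lemma gval_gmir {A : Type} [CommRing A] (v : Q4 A) (X Y : A) :
    gval (gmir v) X Y = gval v (-X) Y := by
  change -v 0 * X ^ 3 + v 1 * X ^ 2 * Y + -v 2 * X * Y ^ 2 + v 3 * Y ^ 3 = _
  rw [gval]
  ring

/-- HZA. -/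
theorem hza : HzaStmt := by
  intro v hv
  obtain ⟨u, hu, rfl⟩ := thb.1 v hv
  have hu0 : dt u ≠ 0 := hu.ne'
  have h1 : ∀ x y z w : ℝ, x * w - y * z ≠ 0 → ∀ X Y : ℝ,
      hz (gact (th u) x y z w) X Y =
        hz (th u) (x * X + y * Y) (z * X + w * Y) / |x * w - y * z| := by
    intro x y z w hdet X Y
    have hd2 : dt (su u x y z w) ≠ 0 := by
      rw [dt_su]
      exact mul_ne_zero hu0 hdet
    rw [gact_th, hz_th _ hd2, hz_th _ hu0, dt_su, abs_mul]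
    change (((u 0 * x + u 1 * z) * X + (u 0 * y + u 1 * w) * Y) ^ 2 +
      ((u 2 * x + u 3 * z) * X + (u 2 * y + u 3 * w) * Y) ^ 2) / _ = _
    have e1 : (u 0 * x + u 1 * z) * X + (u 0 * y + u 1 * w) * Y =
        u 0 * (x * X + y * Y) + u 1 * (z * X + w * Y) := by ring
    have e2 : (u 2 * x + u 3 * z) * X + (u 2 * y + u 3 * w) * Y =
        u 2 * (x * X + y * Y) + u 3 * (z * X + w * Y) := by ring
    rw [e1, e2, div_div]
    ring
  refine ⟨h1, ?_, ?_, mm_gmir _, fun X Y => ⟨gval_gmir _ X Y, ?_⟩⟩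
  · intro t X Y
    rw [hz_th _ hu0, hz_th _ hu0]
    ring
  · intro X Y hXY
    rw [hz_th _ hu0]
    apply div_pos
    · by_contra hcon
      push Not at hcon
      have a1 : u 0 * X + u 1 * Y = 0 := by
        have := sq_nonneg (u 2 * X + u 3 * Y)
        exact pow_eq_zero_iff (two_ne_zero) |>.1 (le_antisymm (by linarith) (sq_nonneg _))
      have a2 : u 2 * X + u 3 * Y = 0 := by
        have := sq_nonneg (u 0 * X + u 1 * Y)
        exact pow_eq_zero_iff (two_ne_zero) |>.1 (le_antisymm (by linarith) (sq_nonneg _))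
      have b1 : dt u * X = 0 := by
        rw [dt]
        linear_combination u 3 * a1 - u 1 * a2
      have b2 : dt u * Y = 0 := by
        rw [dt]
        linear_combination u 0 * a2 - u 2 * a1
      rcases hXY with h | h
      · exact h ((mul_eq_zero.1 b1).resolve_left hu0)
      · exact h ((mul_eq_zero.1 b2).resolve_left hu0)
    · positivity
  · rw [gmir_eq, h1 _ _ _ _ (by norm_num) X Y]
    have e1 : (-1 : ℝ) * X + 0 * Y = -X := by ring
    have e2 : (0 : ℝ) * X + 1 * Y = Y := by ring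
    rw [e1, e2]
    norm_num

/-! ## Integral versions -/

variable {k : Type} [Field k]

lemma rl_mm (s : Sg k) (v : Q4 (𝓞 k)) : mm (rl s v) = s ((mm v : 𝓞 k) : k) := by
  simp only [mm, dsc, rl, map_neg, map_add, map_sub, map_mul, map_pow, map_ofNat]

lemma rl_gval (s : Sg k) (v : Q4 (𝓞 k)) (X Y : 𝓞 k) :
    gval (rl s v) (s (X : k)) (s (Y : k)) = s ((gval v X Y : 𝓞 k) : k) := by
  simp only [gval, rl, map_add, map_mul, map_pow]

lemma rl_gact (s : Sg k) (v : Q4 (𝓞 k)) (x y z w : 𝓞 k) :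
    rl s (gact v x y z w) = gact (rl s v) (s (x : k)) (s (y : k)) (s (z : k)) (s (w : k)) := by
  apply q4_ext
  · change s ((gval v x z : 𝓞 k) : k) = gval (rl s v) (s (x : k)) (s (z : k))
    rw [rl_gval]
  · change s ((3 * v 0 * x ^ 2 * y + v 1 * (x ^ 2 * w + 2 * x * y * z) +
      v 2 * (2 * x * z * w + y * z ^ 2) + 3 * v 3 * z ^ 2 * w : 𝓞 k) : k) =
      3 * s (v 0 : k) * s (x : k) ^ 2 * s (y : k) + s (v 1 : k) * (s (x : k) ^ 2 * s (w : k) +
        2 * s (x : k) * s (y : k) * s (z : k)) +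
      s (v 2 : k) * (2 * s (x : k) * s (z : k) * s (w : k) + s (y : k) * s (z : k) ^ 2) +
      3 * s (v 3 : k) * s (z : k) ^ 2 * s (w : k)
    simp only [map_add, map_mul, map_pow, map_ofNat]
  · change s ((3 * v 0 * x * y ^ 2 + v 1 * (2 * x * y * w + y ^ 2 * z) +
      v 2 * (x * w ^ 2 + 2 * y * z * w) + 3 * v 3 * z * w ^ 2 : 𝓞 k) : k) =
      3 * s (v 0 : k) * s (x : k) * s (y : k) ^ 2 + s (v 1 : k) * (2 * s (x : k) * s (y : k) *
        s (w : k) + s (y : k) ^ 2 * s (z : k)) +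
      s (v 2 : k) * (s (x : k) * s (w : k) ^ 2 + 2 * s (y : k) * s (z : k) * s (w : k)) +
      3 * s (v 3 : k) * s (z : k) * s (w : k) ^ 2
    simp only [map_add, map_mul, map_pow, map_ofNat]
  · change s ((gval v y w : 𝓞 k) : k) = gval (rl s v) (s (y : k)) (s (w : k))
    rw [rl_gval]

lemma rl_gmir (s : Sg k) (v : Q4 (𝓞 k)) : rl s (gmir v) = gmir (rl s v) := by
  apply q4_ext
  · change s ((-v 0 : 𝓞 k) : k) = -s (v 0 : k)
    simp
  · rfl
  · change s ((-v 2 : 𝓞 k) : k) = -s (v 2 : k)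
    simp
  · rfl

lemma hg_gact (v : Q4 (𝓞 k)) (s : Sg k) (hv : 0 < s ((mm v : 𝓞 k) : k)) (x y z w : 𝓞 k)
    (hdet : x * w - y * z ≠ 0) (X Y : 𝓞 k) :
    hg (gact v x y z w) X Y s =
      hg v (x * X + y * Y) (z * X + w * Y) s / |s ((x * w - y * z : 𝓞 k) : k)| := by
  have h1 : 0 < mm (rl s v) := by
    rw [rl_mm]
    exact hv
  have h2 : s (x : k) * s (w : k) - s (y : k) * s (z : k) ≠ 0 := by
    have h3 : s ((x * w - y * z : 𝓞 k) : k) ≠ 0 := by
      rw [map_ne_zero]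
      exact_mod_cast hdet
    simpa only [map_sub, map_mul] using h3
  have h4 := (hza (rl s v) h1).1 _ _ _ _ h2 (s (X : k)) (s (Y : k))
  simp only [hg]
  rw [rl_gact, h4]
  simp only [map_sub, map_mul, map_add]

lemma hg_pos (v : Q4 (𝓞 k)) (s : Sg k) (hv : 0 < s ((mm v : 𝓞 k) : k)) (X Y : 𝓞 k)
    (hXY : X ≠ 0 ∨ Y ≠ 0) : 0 < hg v X Y s := by
  have h1 : 0 < mm (rl s v) := by
    rw [rl_mm]
    exact hv
  apply (hza (rl s v) h1).2.2.1
  rcases hXY with h | h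
  · left
    rw [map_ne_zero]
    exact_mod_cast h
  · right
    rw [map_ne_zero]
    exact_mod_cast h

lemma hg_smul (v : Q4 (𝓞 k)) (s : Sg k) (hv : 0 < s ((mm v : 𝓞 k) : k)) (t X Y : 𝓞 k) :
    hg v (t * X) (t * Y) s = s (t : k) ^ 2 * hg v X Y s := by
  have h1 : 0 < mm (rl s v) := by
    rw [rl_mm]
    exact hv
  simp only [hg, map_mul]
  exact (hza (rl s v) h1).2.1 _ _ _

lemma hg_gmir (v : Q4 (𝓞 k)) (s : Sg k) (hv : 0 < s ((mm v : 𝓞 k) : k)) (X Y : 𝓞 k) :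
    hg (gmir v) X Y s = hg v (-X) Y s := by
  have h1 : 0 < mm (rl s v) := by
    rw [rl_mm]
    exact hv
  simp only [hg, rl_gmir, map_neg]
  exact ((hza (rl s v) h1).2.2.2.2 _ _).2

lemma mm_gact {A : Type} [CommRing A] (v : Q4 A) (x y z w : A) :
    mm (gact v x y z w) = (x * w - y * z) ^ 6 * mm v := by
  simp only [mm]
  rw [((H87.idn A v).2 x y z w).1]
  ring

end Pool.Agent.LeoG.H26
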