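import Pool.Agent.Helper26_LeoG.Hza
import Pool.Agent.Helper26_LeoK.Nrf

/-!
# Squad LEOG, module NRF: normalisation of a form by a unit and a translation
-/

set_option autoImplicit false

namespace Pool.Agent.LeoG.H26

open Pool.Agent.LeoK NumberField Module

/-- NRF. -/
theorem nrf (hNor : LeoK.NorStmt) : LeoG.NrfStmt := by
  intro k _ _ hk Φ v hv0 hM
  obtain ⟨η, hη⟩ := Φ.exi (hg v 1 0) fun s => hg_pos v s (hM s) 1 0 (Or.inl one_ne_zero)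
  set u : Q4 (𝓞 k) := gact v (η : 𝓞 k) 0 0 ((η⁻¹ : (𝓞 k)ˣ) : 𝓞 k) with hu
  have hdet : ((η : 𝓞 k) * ((η⁻¹ : (𝓞 k)ˣ) : 𝓞 k) - 0 * 0) = 1 := by
    rw [Units.mul_inv]
    ring
  have hu1 : mm u = mm v := by
    rw [hu, mm_gact, hdet]
    ring
  have hu0 : u 0 = v 0 * (η : 𝓞 k) ^ 3 := by
    change gval v (η : 𝓞 k) 0 = _
    rw [gval]
    ring
  have hu0' : u 0 ≠ 0 := by
    rw [hu0]
    exact mul_ne_zero hv0 (pow_ne_zero _ η.ne_zero)
  have hug : ∀ s : Sg k, hg u 1 0 s = s ((η : 𝓞 k) : k) ^ 2 * hg v 1 0 s := by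
    intro s
    rw [hu, hg_gact v s (hM s) _ _ _ _ (by rw [hdet]; exact one_ne_zero), hdet]
    have e1 : (η : 𝓞 k) * 1 + 0 * 0 = (η : 𝓞 k) * 1 := by ring
    have e2 : (0 : 𝓞 k) * 1 + ((η⁻¹ : (𝓞 k)ˣ) : 𝓞 k) * 0 = (η : 𝓞 k) * 0 := by ring
    rw [e1, e2, hg_smul v s (hM s)]
    simp
  obtain ⟨t, ht⟩ := LeoK.H26.exists_translate Φ (fun s : Sg k => s (u 1 : k) / (3 * s (u 0 : k)))
  have hM' : ∀ s : Sg k, 0 < s ((mm u : 𝓞 k) : k) := by
    intro s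
    rw [hu1]
    exact hM s
  have hdet2 : ((1 : 𝓞 k) * 1 - t * 0) = 1 := by ring
  have hw1 : mm (gact u 1 t 0 1) = mm u := by
    rw [mm_gact, hdet2]
    ring
  have hw0 : gact u 1 t 0 1 0 = u 0 := by
    change gval u 1 0 = _
    rw [gval]
    ring
  have hw11 : gact u 1 t 0 1 1 = u 1 + 3 * t * u 0 := by
    change 3 * u 0 * 1 ^ 2 * t + u 1 * (1 ^ 2 * 1 + 2 * 1 * t * 0) +
      u 2 * (2 * 1 * 0 * 1 + t * 0 ^ 2) + 3 * u 3 * 0 ^ 2 * 1 = _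
    ring
  have hwg : ∀ s : Sg k, hg (gact u 1 t 0 1) 1 0 s = s ((η : 𝓞 k) : k) ^ 2 * hg v 1 0 s := by
    intro s
    rw [hg_gact u s (hM' s) _ _ _ _ (by rw [hdet2]; exact one_ne_zero), hdet2]
    have e1 : (1 : 𝓞 k) * 1 + t * 0 = 1 := by ring
    have e2 : (0 : 𝓞 k) * 1 + 1 * 0 = 0 := by ring
    rw [e1, e2, hug s]
    simp
  refine ⟨gact u 1 t 0 1, ?_, ?_, ?_, ?_, ?_⟩
  · rw [hw1, hu1]
  · rw [hw0]
    exact hu0'
  · have h1 : (fun s : Sg k => s ((gact u 1 t 0 1 1 : 𝓞 k) : k) /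
        (3 * s ((gact u 1 t 0 1 0 : 𝓞 k) : k))) =
        (fun s : Sg k => s (u 1 : k) / (3 * s (u 0 : k))) + lam (t : k) := by
      funext s
      have h2 : s (u 0 : k) ≠ 0 := by
        rw [map_ne_zero]
        exact_mod_cast hu0'
      rw [hw0, hw11, Pi.add_apply]
      simp only [map_add, map_mul, map_ofNat, lam]
      field_simp
    rw [h1]
    exact ht
  · have h1 : hg (gact u 1 t 0 1) 1 0 = lam ((η : 𝓞 k) : k) ^ 2 * hg v 1 0 := by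
      funext s
      rw [hwg s]
      rfl
    rw [h1]
    exact hη
  · rw [Finset.prod_congr rfl fun s _ => hwg s, Finset.prod_mul_distrib,
      LeoK.H26.prod_unit_sq hNor hk, one_mul]

end Pool.Agent.LeoG.H26
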